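import Pool.Agent.H.MP_cecf76_co.A

namespace Pool.Agent.Results.MP_cecf76_co.Power
open Finset Real

/-- the largest `s` such that every sequence of `m` subsets of an `n`-set, each of size more than
`c n`, has an `ε`-intersecting index set of size `s` -/
noncomputable def f (n m : ℕ) (c ε : ℝ) : ℕ :=
  sSup {s | ∀ A : Fin m → Finset (Fin n), (∀ k, c * n < (A k).card) →
    ∃ I : Finset (Fin m), I.card = s ∧ ∀ i ∈ I, ∀ j ∈ I, i ≠ j → ε * n < (A i ∩ A j).card}

theorem result (c ε : ℝ) (c0 : 0 < c) (c1 : c ≤ 1 / 2) (e0 : 0 < ε) (e1 : ε ≤ 1) (n m : ℕ)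
    (n0 : 0 < n) (m0 : 0 < m) :
    (∀ δ : ℝ, 0 < δ → ε ≤ c ^ (1 + 1 / δ) → c / 2 * (2 * m) ^ (-δ) * m ≤ f n m c ε) ∧
    (m ≤ 2 ^ n → (f n m c ε : ℝ) ≤ 6 * (m : ℝ) ^ (1 - ε ^ 3 / 16)) := by
  have n1 : (0 : ℝ) < n := by exact_mod_cast n0
  have m1 : (0 : ℝ) < m := by exact_mod_cast m0
  have bd : BddAbove {s | ∀ A : Fin m → Finset (Fin n), (∀ k, c * n < (A k).card) →
      ∃ I : Finset (Fin m), I.card = s ∧ ∀ i ∈ I, ∀ j ∈ I, i ≠ j → ε * n < (A i ∩ A j).card} :=
    ⟨m, fun s hs => by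
      obtain ⟨I, rfl, -⟩ := hs (fun _ => univ) fun _ => by rw [card_fin]; nlinarith
      simpa using card_le_univ I⟩
  refine ⟨fun δ d0 d1 => (Nat.le_ceil _).trans (Nat.cast_le.mpr (le_csSup bd fun A h => ?_)),
    fun hm => ?_⟩
  · obtain ⟨I, -, h1, h2⟩ := H.MP_cecf76_co.big A c0 (by linarith) e0.le d0 d1 h univ
    rw [card_fin] at h2
    obtain ⟨J, s, k⟩ := exists_subset_card_eq (Nat.ceil_le.mpr h2)
    exact ⟨J, k, fun i hi j hj => h1 i (s hi) j (s hj)⟩
  obtain ⟨H, h0, h1, h2, h3⟩ := H.MP_cecf76_co.core n0 m0 e0 e1 hm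
  have M0 := h0.card_pos
  let A : Fin m → Finset (Fin n) := fun k => H.equivFin.symm ⟨k % H.card, Nat.mod_lt _ M0⟩
  have a : ∀ k, A k ∈ H := fun k => Subtype.prop _
  obtain ⟨I, e, hI⟩ := Nat.sSup_mem ⟨0, fun _ _ => ⟨∅, rfl, by simp⟩⟩ bd A fun k => by
    have : (n : ℝ) < 2 * (A k).card := by exact_mod_cast h2 _ (a k)
    nlinarith
  have k1 := h3 (I.image A) (image_subset_iff.mpr fun k _ => a k) (by
    simp only [forall_mem_image]
    exact fun i hi j hj n => (hI i hi j hj fun e => n (by rw [e])).le)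
  have k2 := card_le_mul_card_image (f := A) I (m / H.card + 1) fun B _ => by
    rw [← card_range (m / H.card + 1)]
    refine card_le_card_of_injOn (fun k => k / H.card) (fun k _ => ?_) fun k hk l hl q => ?_
    · simpa [Nat.lt_succ_iff] using Nat.div_le_div_right k.2.le
    · have := Fin.mk.inj (H.equivFin.symm.injective (Subtype.ext
        ((mem_filter.mp hk).2.trans (mem_filter.mp hl).2.symm)))
      exact Fin.ext (by rw [← Nat.div_add_mod k H.card, ← Nat.div_add_mod l H.card, this]; congr 2)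
  have k3 : (m / H.card + 1) * H.card ≤ 2 * m := by
    have := Nat.div_mul_le_self m H.card
    nlinarith
  have k4 : (I.card : ℝ) * H.card ≤ 2 * m * (I.image A).card := by
    exact_mod_cast (show I.card * H.card ≤ 2 * m * (I.image A).card by nlinarith)
  have M1 : (0 : ℝ) < H.card := by exact_mod_cast M0
  have p := rpow_pos_of_pos m1 (ε ^ 3 / 16)
  rw [show f n m c ε = I.card from e.symm, rpow_sub m1, rpow_one, ← mul_div_assoc, le_div_iff₀ p]
  refine le_of_mul_le_mul_right ?_ M1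
  nlinarith [mul_le_mul_of_nonneg_right k4 p.le]

end Pool.Agent.Results.MP_cecf76_co.Power
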